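import Pool.Agent.H7.MF.Stmts
import Pool.Agent.H67.GV.GC9

/-!
# Board mf18 (MP_fd41b2_co), row GCE: the pointwise inequality for the weights (after GCY of helper16)
-/

set_option autoImplicit false

open Finset

namespace Pool.MF7

open Pool.Agent.H23.KT Pool.Agent.H46.KW Pool.KQ Pool.GT7 Pool.GU7 Pool.GV7

/-- for `B ≤ r - 1` -/
theorem GCE_small (p w r B : ℕ) (hP : PrE p w r) (hB : B + 1 ≤ r) :
    ((w : ℝ) + 3) * B.choose (w + 1) + 1 ≤ (p + 2).choose (w + 1) := by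
  have h1 : (w + 3) * B.choose (w + 1) ≤ (w + 3) * (r - 1).choose (w + 1) :=
    Nat.mul_le_mul_left _ (Nat.choose_le_choose _ (by omega))
  have h5 : (w + 3) * B.choose (w + 1) + 1 ≤ (p + 2).choose (w + 1) := lt_of_le_of_lt h1 hP.s2
  exact_mod_cast h5

theorem GCE_thm : GCEStmt := by
  intro p w r hP
  have hP' := hP
  obtain ⟨w2, wp, rw', rp, R1, R3⟩ := hP'
  have h1 : (r : ℝ) ≤ p := by exact_mod_cast rp
  have h2 : (2 : ℝ) ≤ r := by
    have : 2 ≤ r := by omega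
    exact_mod_cast this
  have hPR : 0 < (p : ℝ) + 3 - r := by linarith
  have hc : (1 : ℝ) ≤ (p + 2).choose (w + 1) := by
    exact_mod_cast Nat.choose_pos (by omega : w + 1 ≤ p + 2)
  refine ⟨⟨wp, by omega, rp⟩, ?_⟩
  · intro B hB
    have hP1 : 0 < (p : ℝ) + 3 := by linarith
    have hP2 : (1 : ℝ) ≤ ((p : ℝ) + 3) ^ 2 := by nlinarith
    rcases Nat.lt_or_ge B r with h | h
    · rw [GC9_ww_lo p r B h]
      have a1 := GCE_small p w r B hP h
      have a2 : 1 / (4 * ((p : ℝ) + 3) ^ 2) ≤ 1 / 4 := by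
        rw [div_le_div_iff₀ (by positivity) (by norm_num)]
        linarith
      linarith
    · obtain ⟨s, rfl⟩ : ∃ s, r = s + 1 := ⟨r - 1, by omega⟩
      rw [GC9_ww_hi p (s + 1) B rp h]
      set c : ℝ := ((p + 2).choose (w + 1) : ℝ) with hcdef
      have hq : 0 < (B : ℝ) + 1 := by positivity
      have h3 : ((s : ℝ) + 1) ≤ B := by exact_mod_cast h
      have h5 : (B : ℝ) ≤ p + 1 := by exact_mod_cast hB
      have cv := GC9_convex (s + 1) (B + 1) (p + 3) (w + 1) (by omega) (by omega)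
      have e1 : ((p + 3 : ℕ) : ℝ) * c = ((p + 3).choose (w + 1 + 1) : ℝ) * ((w + 1 + 1 : ℕ) : ℝ) := by
        rw [hcdef]
        exact_mod_cast Nat.add_one_mul_choose_eq (p + 2) (w + 1)
      have e2 : ((B + 1 : ℕ) : ℝ) * (B.choose (w + 1) : ℝ) =
          ((B + 1).choose (w + 1 + 1) : ℝ) * ((w + 1 + 1 : ℕ) : ℝ) := by
        exact_mod_cast Nat.add_one_mul_choose_eq B (w + 1)
      have e3 : ((s + 1 : ℕ) : ℝ) * (s.choose (w + 1) : ℝ) =
          ((s + 1).choose (w + 1 + 1) : ℝ) * ((w + 1 + 1 : ℕ) : ℝ) := by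
        exact_mod_cast Nat.add_one_mul_choose_eq s (w + 1)
      have a1 : ((w : ℝ) + 3) * s.choose (w + 1) ≤ c - 1 / 2 := by
        have := GCE_small p w (s + 1) s hP le_rfl
        linarith
      push_cast at cv e1 e2 e3 h1 h2 hPR ⊢
      set fq : ℝ := ((B + 1).choose (w + 1 + 1) : ℝ)
      set fr : ℝ := ((s + 1).choose (w + 1 + 1) : ℝ)
      set fb : ℝ := ((p + 3).choose (w + 1 + 1) : ℝ)
      set cB : ℝ := (B.choose (w + 1) : ℝ)
      set cs : ℝ := (s.choose (w + 1) : ℝ)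
      have hw0 : (0 : ℝ) ≤ w := Nat.cast_nonneg w
      -- multiply the convexity inequality by `(u + 1) u`
      have b1 : ((w : ℝ) + 3) * cB * ((B : ℝ) + 1) * ((p : ℝ) + 3 - (s + 1)) ≤
          ((p : ℝ) + 2 - B) * (s + 1) * (c - 1 / 2) +
            ((w : ℝ) + 3) * ((B : ℝ) - s) * (((p : ℝ) + 3) * c) := by
        have b2 := mul_le_mul_of_nonneg_left cv
          (mul_nonneg (by linarith : (0 : ℝ) ≤ (w : ℝ) + 3) (by linarith : (0 : ℝ) ≤ (w : ℝ) + 1 + 1))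
        have b3 : ((w : ℝ) + 3) * ((w : ℝ) + 1 + 1) * (((p : ℝ) + 3 - (s + 1)) * fq) =
            ((w : ℝ) + 3) * cB * ((B : ℝ) + 1) * ((p : ℝ) + 3 - (s + 1)) := by
          linear_combination (-(((w : ℝ) + 3) * ((p : ℝ) + 3 - (s + 1)))) * e2
        have b4 : ((w : ℝ) + 3) * ((w : ℝ) + 1 + 1) * (((p : ℝ) + 3 - ((B : ℝ) + 1)) * fr +
            ((B : ℝ) + 1 - (s + 1)) * fb) =
            ((p : ℝ) + 2 - B) * (s + 1) * (((w : ℝ) + 3) * cs) +
              ((w : ℝ) + 3) * ((B : ℝ) - s) * (((p : ℝ) + 3) * c) := by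
          linear_combination (-(((w : ℝ) + 3) * ((p : ℝ) + 2 - B))) * e3 -
            ((w : ℝ) + 3) * ((B : ℝ) - s) * e1
        rw [b3, b4] at b2
        have hs0 : (0 : ℝ) ≤ s := Nat.cast_nonneg s
        have b5 := mul_le_mul_of_nonneg_left a1
          (mul_nonneg (by linarith : (0 : ℝ) ≤ (p : ℝ) + 2 - B) (by linarith : (0 : ℝ) ≤ (s : ℝ) + 1))
        linarith
      have b6 : ((p : ℝ) + 3 - (s + 1)) * ((B : ℝ) + 1) / (4 * ((p : ℝ) + 3) ^ 2) ≤
          ((p : ℝ) + 2 - B) * (s + 1) * (1 / 2) := by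
        have hs0 : (0 : ℝ) ≤ s := Nat.cast_nonneg s
        have c1 : ((p : ℝ) + 3 - (s + 1)) * ((B : ℝ) + 1) ≤ ((p : ℝ) + 3) ^ 2 := by
          rw [sq]
          exact mul_le_mul (by linarith) (by linarith) hq.le hP1.le
        have c2 : ((p : ℝ) + 3 - (s + 1)) * ((B : ℝ) + 1) / (4 * ((p : ℝ) + 3) ^ 2) ≤ 1 / 4 := by
          rw [div_le_div_iff₀ (by positivity) (by norm_num)]
          linarith
        have c3 : (1 : ℝ) ≤ ((p : ℝ) + 2 - B) * (s + 1) := by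
          have := mul_le_mul (by linarith : (1 : ℝ) ≤ (p : ℝ) + 2 - B)
            (by linarith : (1 : ℝ) ≤ (s : ℝ) + 1) (by norm_num) (by linarith)
          linarith
        linarith
      have hden : 0 < ((p : ℝ) + 3 - (s + 1)) * ((B : ℝ) + 1) := mul_pos hPR hq
      have key : ((w : ℝ) + 3) * cB * (((p : ℝ) + 3 - (s + 1)) * ((B : ℝ) + 1)) +
          ((p : ℝ) + 3 - (s + 1)) * ((B : ℝ) + 1) / (4 * ((p : ℝ) + 3) ^ 2) ≤
          c * (((p : ℝ) + 3 - (s + 1)) * ((B : ℝ) + 1) +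
            ((w : ℝ) + 2) * (((p : ℝ) + 3) * ((B : ℝ) + 1 - (s + 1)))) := by
        have e4 : c * (((p : ℝ) + 3 - (s + 1)) * ((B : ℝ) + 1) +
            ((w : ℝ) + 2) * (((p : ℝ) + 3) * ((B : ℝ) + 1 - (s + 1)))) =
            ((p : ℝ) + 2 - B) * (s + 1) * c +
              ((w : ℝ) + 3) * ((B : ℝ) - s) * (((p : ℝ) + 3) * c) := by ring
        rw [e4]
        linarith
      have e5 : c * (1 + ((w : ℝ) + 2) * (((p : ℝ) + 3) * ((B : ℝ) + 1 - (s + 1)) /
          (((p : ℝ) + 3 - (s + 1)) * ((B : ℝ) + 1)))) =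
          c * (((p : ℝ) + 3 - (s + 1)) * ((B : ℝ) + 1) +
            ((w : ℝ) + 2) * (((p : ℝ) + 3) * ((B : ℝ) + 1 - (s + 1)))) /
          (((p : ℝ) + 3 - (s + 1)) * ((B : ℝ) + 1)) := by
        field_simp
      rw [e5, le_div_iff₀ hden]
      refine le_trans (le_of_eq ?_) key
      ring

end Pool.MF7
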